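import Mathlib
import Pool.Agent.X119.BP.Main
import Pool.Agent.X46.BP.Fin
import Pool.Agent.X211.BPV.Val
import Pool.Agent.X327.BPF.F1
import Pool.Agent.X295.BP.F2

/-!
# MP_32607b_nt, Q1: odd powers of binomial coefficients summed modulo `n²`

For all positive integers `m, n, k` with `k ≤ m`, the number
`((2k+1)(2m+1)+1)! / ((2k+1)!)^(2m+1)` is an integer, and its product with
`∑_{h=0}^{n-1} C(h,2k+1)^(2m+1)` is divisible by `n²`.
-/

namespace Pool.Agent.Results.MP_32607b_nt.MultinomialPowerSums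

open Finset

theorem result (m n k : ℕ) (hm : 0 < m) (hn : 0 < n) (hk : 0 < k) (hkm : k ≤ m) :
    ((2 * k + 1).factorial) ^ (2 * m + 1) ∣ ((2 * k + 1) * (2 * m + 1) + 1).factorial ∧
    n ^ 2 ∣ ((2 * k + 1) * (2 * m + 1) + 1).factorial / ((2 * k + 1).factorial) ^ (2 * m + 1) *
      ∑ h ∈ range n, (Nat.choose h (2 * k + 1)) ^ (2 * m + 1) := by
  refine ⟨Pool.Agent.X119.BP.fac_dvd (2 * k + 1) (2 * m + 1), ?_⟩
  exact Pool.Agent.X119.BP.main Pool.Agent.X211.BPV.t_VAL Pool.Agent.X327.BPF.f1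
    Pool.Agent.X295.BP.t_F2 Pool.Agent.X46.BP.t_FIN (2 * k + 1) (2 * m + 1)
    ⟨k, rfl⟩ ⟨m, rfl⟩ (by omega) (by omega) n hn

end Pool.Agent.Results.MP_32607b_nt.MultinomialPowerSums
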