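import Pool.Agent.X287.BP.Asm
import Pool.Agent.X144.BP.P3

/-! Odd powers of binomial coefficients summed modulo `n ^ 2`. -/

namespace Pool.Agent.Results.MP_32607b_nt.OddPowers

/-- The prefactor `C_{k,m}` (the division is exact, see `result`). -/
def prefactor (k m : ℕ) : ℕ :=
  ((2 * k + 1) * (2 * m + 1) + 1).factorial / (2 * k + 1).factorial ^ (2 * m + 1)

/-- `S_{k,m}(n)`: the sum of `binom(h, 2k+1)^(2m+1)` over `0 ≤ h < n`. -/
def powerSum (k m n : ℕ) : ℕ :=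
  ∑ h ∈ Finset.range n, (h.choose (2 * k + 1)) ^ (2 * m + 1)

/-- For all positive `k ≤ m` and all positive `n`, the division defining the prefactor is exact and
`n ^ 2` divides `C_{k,m} S_{k,m}(n)`. -/
theorem result : ∀ k m n : ℕ, 0 < k → 0 < m → 0 < n → k ≤ m →
    (2 * k + 1).factorial ^ (2 * m + 1) ∣ ((2 * k + 1) * (2 * m + 1) + 1).factorial ∧
      n ^ 2 ∣ prefactor k m * powerSum k m n := by
  intro k m n hk _ _ hkm
  refine ⟨?_, ?_⟩
  · exact Dvd.intro_left _ (Pool.Agent.X287.BP.Cc_mul (2 * k + 1) (2 * m + 1))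
  · exact Pool.Agent.X287.BP.main Pool.Agent.X144.BP.t_P3a Pool.Agent.X144.BP.t_P3b
      Pool.Agent.X144.BP.t_P3c (2 * k + 1) (2 * m + 1) ⟨k, rfl⟩ ⟨m, rfl⟩ (by omega) (by omega) n

end Pool.Agent.Results.MP_32607b_nt.OddPowers
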